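import Mathlib

/-! Interpolation lemma: few `k` in a short window have `N + k` prime dividing `k! + 1`. -/

namespace Pool.Agent.Lib.MP_e3655f_nt

open Finset Nat

theorem dvd_prod_sub (U : Finset ℕ) (a : ℤ) (f g : ℕ → ℤ) (h : ∀ i ∈ U, a ∣ f i - g i) :
    a ∣ ∏ i ∈ U, f i - ∏ i ∈ U, g i := by
  induction U using Finset.induction_on with
  | empty => simp
  | insert x s hx ih =>
    rw [prod_insert hx, prod_insert hx]
    have h1 := h x (mem_insert_self _ _)
    have h2 := ih fun i hi => h i (mem_insert_of_mem hi)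
    have : f x * ∏ i ∈ s, f i - g x * ∏ i ∈ s, g i =
        (f x - g x) * ∏ i ∈ s, f i + g x * (∏ i ∈ s, f i - ∏ i ∈ s, g i) := by ring
    rw [this]
    exact dvd_add (h1.mul_right _) (h2.mul_left _)

theorem prod_abs_le (U : Finset ℕ) (f : ℕ → ℤ) (a : ℤ) (h : ∀ i ∈ U, |f i| ≤ a) :
    ∏ i ∈ U, |f i| ≤ a ^ U.card := by
  rw [← prod_const]
  exact prod_le_prod (fun i _ => abs_nonneg _) h

theorem core (N t Q w B k0 : ℕ) (T : Finset ℕ) (hT : T.card = t) (ht : 1 ≤ t)
    (hlo : ∀ k ∈ T, k0 + t + 1 ≤ k) (hhi : ∀ k ∈ T, k ≤ k0 + w) (hB : k0 + w ≤ B)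
    (hQ : Q ≤ k0) (hwQ : w ≤ Q) (htQ : 2 * t ≤ Q)
    (hp : ∀ k ∈ insert k0 T, (N + k).Prime ∧ (N + k) ∣ k ! + 1)
    (h1 : 2 * (t + 1) * (B ^ w * w ^ (t * (t + 1))) < N) (h2 : 2 * w ^ t * B ^ B < N ^ t) :
    False := by
  have hk0 : k0 ∉ T := fun h => by have := hlo k0 h; omega
  set U := insert k0 T with hU
  have hUc : U.card = t + 1 := by rw [hU, card_insert_of_notMem hk0, hT]
  have hUr : ∀ k ∈ U, k0 ≤ k ∧ k ≤ k0 + w := by
    intro k hk
    rcases mem_insert.1 hk with rfl | hk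
    · omega
    · have := hlo k hk; have := hhi k hk; omega
  have hw1 : 1 ≤ w := by
    obtain ⟨k, hk⟩ := card_pos.1 (show 0 < T.card by omega)
    have := hlo k hk; have := hhi k hk; omega
  set D : ℕ → ℤ := fun k => ∏ i ∈ U.erase k, ((i : ℤ) - k) with hD
  set R : ℕ → ℕ := fun k => (k0 + 1).ascFactorial (k - k0) with hR
  set S : ℕ → ℕ := fun k => (k + 1).ascFactorial (k0 + w - k) with hS
  set Rm : ℕ := (k0 + 1).ascFactorial w with hRm
  set P : ℕ → ℤ := fun k => ∏ i ∈ U.erase k, ((N : ℤ) + i) with hP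
  set c : ℕ → ℤ := fun k => S k * ∏ j ∈ U.erase k, D j with hc
  set Δ : ℤ := Rm * ∏ j ∈ U, D j with hΔ
  set PP : ℤ := ∏ i ∈ U, ((N : ℤ) + i) with hPP
  have hRS : ∀ k ∈ U, R k * S k = Rm := by
    intro k hk
    obtain ⟨a, b⟩ := hUr k hk
    have := ascFactorial_mul_ascFactorial (k0 + 1) (k - k0) (k0 + w - k)
    simp only [hR, hS, hRm]
    rw [show k + 1 = k0 + 1 + (k - k0) by omega, this]
    congr 1; omega
  have hFR : ∀ k ∈ U, k0 ! * R k = k ! := by
    intro k hk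
    obtain ⟨a, b⟩ := hUr k hk
    simp only [hR]
    rw [factorial_mul_ascFactorial]; congr 1; omega
  have hcΔ : ∀ k ∈ U, c k * R k * D k = Δ := by
    intro k hk
    simp only [hc, hΔ]
    rw [← hRS k hk, ← mul_prod_erase U D hk]; push_cast; ring
  have hD1 : ∀ k, 1 ≤ |D k| := by
    intro k
    refine Int.one_le_abs ?_
    simp only [hD]
    refine prod_ne_zero_iff.2 fun i hi => ?_
    have := (mem_erase.1 hi).1
    omega
  have hDw : ∀ k ∈ U, |D k| ≤ (w : ℤ) ^ t := by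
    intro k hk
    simp only [hD]
    rw [abs_prod, ← show (U.erase k).card = t by rw [card_erase_of_mem hk]; omega]
    refine prod_abs_le _ _ _ fun i hi => ?_
    have := hUr i (mem_of_mem_erase hi); have := hUr k hk
    rw [abs_le]; omega
  have hR1 : ∀ k, 1 ≤ R k := fun k => ascFactorial_pos _ _
  have hPk : ∀ k ∈ U, ((N : ℤ) + k) * P k = PP := fun k hk =>
    mul_prod_erase U (fun i => (N : ℤ) + i) hk
  have hP0 : ∀ k, 0 ≤ P k := fun k => prod_nonneg fun i _ => by positivity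
  have hPN : ∀ k ∈ U, (N : ℤ) ^ t ≤ P k := by
    intro k hk
    simp only [hP]
    rw [← show (U.erase k).card = t by rw [card_erase_of_mem hk]; omega, ← prod_const]
    exact prod_le_prod (fun i _ => by positivity) fun i _ => by omega
  set A : ℕ := B ^ w * w ^ (t * (t + 1)) with hA
  have hΔA : |Δ| ≤ A := by
    simp only [hΔ, hA]
    rw [abs_mul, abs_prod]
    push_cast
    refine mul_le_mul ?_ ?_ (prod_nonneg fun i _ => abs_nonneg _) (by positivity)
    · rw [abs_of_nonneg (by positivity)]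
      have := (ascFactorial_le_pow_add k0 w).trans (Nat.pow_le_pow_left hB w)
      exact_mod_cast this
    · rw [pow_mul, ← hUc]
      exact prod_abs_le _ _ _ hDw
  have habs : ∀ k ∈ U, |c k| * R k * |D k| = |Δ| := by
    intro k hk
    rw [← hcΔ k hk, abs_mul (c k * R k), abs_mul (c k), Nat.abs_cast]
  have hcR : ∀ k ∈ U, |c k| * R k ≤ |Δ| := by
    intro k hk
    rw [← habs k hk]
    exact le_mul_of_one_le_right (by positivity) (hD1 k)
  have hcA : ∀ k ∈ U, |c k| ≤ A := by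
    intro k hk
    refine le_trans ?_ ((hcR k hk).trans hΔA)
    exact le_mul_of_one_le_right (abs_nonneg _) (by exact_mod_cast hR1 k)
  have hF : (k0 ! : ℤ) ≤ (B : ℤ) ^ B := by
    have : k0 ! ≤ B ^ B := (factorial_le (by omega)).trans (factorial_le_pow B)
    exact_mod_cast this
  set Z : ℤ := Δ * k0 ! + ∑ k ∈ U, c k * P k with hZ
  have hdv : PP ∣ Z := by
    refine prod_dvd_of_coprime ?_ ?_
    · intro i hi j hj hij
      have := (coprime_primes (hp i hi).1 (hp j hj).1).2 (by omega)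
      have := Nat.isCoprime_iff_coprime.2 this
      simpa [Function.onFun] using this
    · intro k hk
      have e : Z = c k * D k * ((k ! + 1 : ℕ) : ℤ) + c k * (P k - D k) +
          ∑ j ∈ U.erase k, c j * P j := by
        simp only [hZ]
        rw [← add_sum_erase U _ hk, ← hcΔ k hk, ← hFR k hk]; push_cast; ring
      rw [e]
      refine dvd_add (dvd_add (Dvd.dvd.mul_left ?_ _) (Dvd.dvd.mul_left ?_ _)) ?_
      · exact_mod_cast (hp k hk).2
      · exact dvd_prod_sub _ _ _ _ fun i _ => ⟨1, by ring⟩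
      · refine dvd_sum fun j hj => Dvd.dvd.mul_left ?_ _
        exact dvd_prod_of_mem (fun i : ℕ => (N : ℤ) + i)
          (mem_erase.2 ⟨(mem_erase.1 hj).1.symm, hk⟩)
  have h1' : 2 * ((t : ℤ) + 1) * A < N := by exact_mod_cast h1
  have h2' : 2 * (w : ℤ) ^ t * (B : ℤ) ^ B < (N : ℤ) ^ t := by exact_mod_cast h2
  have hA0 : (0 : ℤ) ≤ A := by positivity
  have hN : (0 : ℤ) < N := lt_of_le_of_lt (by positivity) h1'
  have hk0U : k0 ∈ U := mem_insert_self _ _
  have hwt : (1 : ℤ) ≤ (w : ℤ) ^ t := one_le_pow₀ (by exact_mod_cast hw1)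
  have hBB : (0 : ℤ) ≤ (B : ℤ) ^ B := by positivity
  have hNP : ∀ k ∈ U, (N : ℤ) * P k ≤ PP := by
    intro k hk
    rw [← hPk k hk]
    exact mul_le_mul_of_nonneg_right (by omega) (hP0 k)
  have hPP0 : 0 < PP := lt_of_lt_of_le (mul_pos hN (lt_of_lt_of_le (by positivity)
    (hPN k0 hk0U))) (hNP k0 hk0U)
  have hsum : 2 * |∑ k ∈ U, c k * P k| < PP := by
    have a1 : (N : ℤ) * |∑ k ∈ U, c k * P k| ≤ (t + 1) * (A * PP) := by
      refine (mul_le_mul_of_nonneg_left (abs_sum_le_sum_abs _ _) hN.le).trans ?_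
      rw [mul_sum]
      refine (sum_le_card_nsmul _ _ (A * PP) fun k hk => ?_).trans ?_
      · rw [abs_mul, abs_of_nonneg (hP0 k), mul_left_comm]
        exact mul_le_mul (hcA k hk) (hNP k hk) (mul_nonneg hN.le (hP0 k)) hA0
      · rw [hUc]; simp
    have a2 : 2 * ((t : ℤ) + 1) * A * PP < N * PP := mul_lt_mul_of_pos_right h1' hPP0
    refine lt_of_mul_lt_mul_left (a := (N : ℤ)) ?_ hN.le
    nlinarith
  have hfirst : 2 * |Δ * k0 !| < PP := by
    rw [abs_mul, Nat.abs_cast]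
    have a1 : |Δ| * k0 ! ≤ A * (B : ℤ) ^ B := mul_le_mul hΔA hF (by positivity) hA0
    have a2 : (A : ℤ) ≤ N := by nlinarith
    have a3 : 2 * (B : ℤ) ^ B < (N : ℤ) ^ t := by nlinarith
    have a4 : (N : ℤ) * (N : ℤ) ^ t ≤ PP :=
      (mul_le_mul_of_nonneg_left (hPN k0 hk0U) hN.le).trans (hNP k0 hk0U)
    have a5 : (A : ℤ) * (B : ℤ) ^ B ≤ N * (B : ℤ) ^ B := mul_le_mul_of_nonneg_right a2 hBB
    have a6 : (N : ℤ) * (2 * (B : ℤ) ^ B) < N * (N : ℤ) ^ t := mul_lt_mul_of_pos_left a3 hN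
    linarith
  have hZ0 : Z = 0 := by
    refine Int.eq_zero_of_abs_lt_dvd hdv ?_
    have := abs_add_le (Δ * k0 !) (∑ k ∈ U, c k * P k)
    linarith
  have hR0 : R k0 = 1 := by simp [hR]
  have hc0 : |c k0| * |D k0| = |Δ| := by
    have := habs k0 hk0U
    rw [hR0] at this; simpa using this
  have hΔ0 : 0 < |Δ| := by
    refine abs_pos.2 (mul_ne_zero ?_ (prod_ne_zero_iff.2 fun j _ h => ?_))
    · exact_mod_cast (ascFactorial_pos _ _).ne'
    · have := hD1 j; rw [h] at this; simp at this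
  have hc00 : 0 < |c k0| := by
    rcases (abs_nonneg (c k0)).eq_or_lt with h | h
    · rw [← h] at hc0; simp at hc0; rw [hc0] at hΔ0; simp at hΔ0
    · exact h
  have hsm : ∀ k ∈ T, 2 * (t : ℤ) * (|c k| * P k) ≤ |c k0| * P k0 := by
    intro k hk
    have hkU : k ∈ U := mem_insert_of_mem hk
    have b1 : 2 * t * w ^ t ≤ R k := by
      have := hlo k hk
      calc 2 * t * w ^ t ≤ Q * Q ^ t := Nat.mul_le_mul htQ (Nat.pow_le_pow_left hwQ t)
        _ = Q ^ (t + 1) := by ring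
        _ ≤ (k0 + 1) ^ (t + 1) := Nat.pow_le_pow_left (by omega) _
        _ ≤ (k0 + 1) ^ (k - k0) := Nat.pow_le_pow_right (by omega) (by omega)
        _ ≤ R k := pow_succ_le_ascFactorial _ _
    have b1' : 2 * (t : ℤ) * (w : ℤ) ^ t ≤ R k := by exact_mod_cast b1
    have b2 : 2 * (t : ℤ) * |c k| ≤ |c k0| := by
      have d1 := hcR k hkU
      have d2 := hDw k0 hk0U
      have d3 : 2 * (t : ℤ) * |D k0| ≤ R k :=
        (mul_le_mul_of_nonneg_left d2 (by positivity)).trans b1'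
      have d4 := mul_le_mul_of_nonneg_left d3 (abs_nonneg (c k))
      refine le_of_mul_le_mul_right (a := |D k0|) ?_ (lt_of_lt_of_le one_pos (hD1 k0))
      nlinarith
    have b3 : P k ≤ P k0 := by
      have e1 := hPk k hkU
      have e2 := hPk k0 hk0U
      have := hlo k hk
      refine le_of_mul_le_mul_left (a := (N : ℤ) + k) ?_ (by positivity)
      rw [e1, ← e2]
      exact mul_le_mul_of_nonneg_right (by omega) (hP0 k0)
    rw [← mul_assoc]
    exact mul_le_mul b2 b3 (hP0 k) (abs_nonneg _)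
  have hT2 : 2 * |∑ k ∈ T, c k * P k| ≤ |c k0| * P k0 := by
    have ht' : (0 : ℤ) < t := by exact_mod_cast ht
    refine le_of_mul_le_mul_left (a := (t : ℤ)) ?_ ht'
    have a1 := abs_sum_le_sum_abs (fun k => c k * P k) T
    have a2 : 2 * (t : ℤ) * ∑ k ∈ T, |c k * P k| ≤ t * (|c k0| * P k0) := by
      rw [mul_sum]
      refine (sum_le_card_nsmul _ _ (|c k0| * P k0) fun k hk => ?_).trans ?_
      · rw [abs_mul, abs_of_nonneg (hP0 k)]; exact hsm k hk
      · rw [hT]; simp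
    nlinarith
  have e : c k0 * P k0 = -(Δ * k0 ! + ∑ k ∈ T, c k * P k) := by
    simp only [hZ] at hZ0
    rw [hU, sum_insert hk0] at hZ0
    linarith
  have e1 : |c k0| * P k0 ≤ |Δ| * k0 ! + |∑ k ∈ T, c k * P k| := by
    have := abs_add_le (Δ * k0 !) (∑ k ∈ T, c k * P k)
    rw [abs_mul, Nat.abs_cast] at this
    rw [← abs_of_nonneg (hP0 k0), ← abs_mul, e, abs_neg]
    exact this
  have e2 : |c k0| * P k0 ≤ |c k0| * (2 * (w : ℤ) ^ t * (B : ℤ) ^ B) := by
    have : |D k0| * k0 ! ≤ (w : ℤ) ^ t * (B : ℤ) ^ B :=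
      mul_le_mul (hDw k0 hk0U) hF (by positivity) (by positivity)
    have := mul_le_mul_of_nonneg_left this hc00.le
    rw [← hc0] at e1
    nlinarith
  have := le_of_mul_le_mul_left e2 hc00
  have := hPN k0 hk0U
  linarith

end Pool.Agent.Lib.MP_e3655f_nt
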