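import Pool.Agent.Lib.MP_e3655f_nt.Pade

/-! Few `k` in a short window have `(N + k) ^ a` dividing `k! + 1`. -/

namespace Pool.Agent.Lib.MP_e3655f_nt

open Finset Nat

theorem core2 (N B l w g s t q x0 : ℕ) (T : Finset ℕ) (hT : T.card = t) (hg : 1 ≤ g)
    (hr : ∀ y ∈ T, y < x0 ∧ x0 ≤ y + w) (hB : x0 ≤ B) (hwB : w ≤ B) (hB3 : 3 ≤ B)
    (htB : t + 1 ≤ B) (hq : q.Prime) (hqx : q ∣ x0) (hx0 : 0 < x0) (hwq : w < q)
    (hp : ∀ y ∈ insert x0 T, (N + y) ^ (g + s) ∣ y ! + 1) (hN : 2 * B ^ l ≤ N)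
    (h1 : w + t * (t * g + 1) + t * g + 2 ≤ l * (1 + s))
    (h2 : t * (t * g + 1) + B + 1 ≤ l * (t * g + 1 + s)) : False := by
  have hx : x0 ∉ T := fun h => by have := hr x0 h; omega
  set U := insert x0 T with hU
  have hxU : x0 ∈ U := mem_insert_self _ _
  have hUc : U.card = t + 1 := by rw [hU, card_insert_of_notMem hx, hT]
  have hUr : ∀ y ∈ U, y ≤ x0 ∧ x0 ≤ y + w := by
    intro k hk
    rcases mem_insert.1 hk with rfl | hk
    · omega
    · have := hr k hk; omega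
  set μ : ℕ → ℕ := fun y => if y = x0 then 1 else g with hμ
  have hs : ∑ y ∈ U, μ y = t * g + 1 := by
    rw [hU, sum_insert hx, sum_congr rfl (g := fun _ => g) fun y hy => by
      have := (hr y hy).1
      simp only [hμ]; rw [if_neg (by omega)]]
    simp [hμ, hT, add_comm]
  have hBl : 1 ≤ B ^ l := Nat.one_le_pow _ _ (by omega)
  obtain ⟨u, u1, u2, -, u4⟩ := pf N g s x0 (by omega) U hxU (t * g) μ hs
    (fun y => by simp only [hμ]; split_ifs <;> omega) (by simp [hμ])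
  have u4 := u4 (by simp [hμ])
  have hE := Bd.prod (N := (N : ℚ)) (by exact_mod_cast (show 0 < N by omega)) U μ s
  rw [u1, hs] at hE
  set Δ : ℤ := ∏ i ∈ U, DD U i ^ μ i with hΔ
  choose! z hz using fun y hy => (u2 y hy).1
  choose! c hc using hp
  set S : ℕ → ℕ := fun y => (y + 1).ascFactorial (x0 - y) with hS
  have hSf : ∀ y ∈ U, y ! * S y = x0 ! := fun y hy => by
    simp only [hS]
    rw [factorial_mul_ascFactorial]; congr 1; have := hUr y hy; omega
  set b : ℚ := (B : ℚ) with hb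
  have hb3 : 3 ≤ b := by rw [hb]; exact_mod_cast hB3
  have hSB : ∀ y ∈ U, (S y : ℚ) ≤ b ^ w := fun y hy => by
    have := hUr y hy
    have : S y ≤ B ^ w := (ascFactorial_le_pow_add y (x0 - y)).trans
      ((Nat.pow_le_pow_left (by omega) _).trans (Nat.pow_le_pow_right (by omega) (by omega)))
    rw [hb]; exact_mod_cast this
  have hD : |(Δ : ℚ)| ≤ b ^ (t * (t * g + 1)) := by
    have : |Δ| ≤ (B : ℤ) ^ (t * (t * g + 1)) := by
      rw [hΔ, abs_prod, pow_mul, ← hs, ← prod_pow_eq_pow_sum]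
      refine prod_le_prod (fun i _ => abs_nonneg _) fun i hi => ?_
      rw [abs_pow]
      refine pow_le_pow_left₀ (abs_nonneg _) ?_ _
      rw [DD, abs_prod, ← show (U.erase i).card = t by rw [card_erase_of_mem hi]; omega,
        ← prod_const]
      refine prod_le_prod (fun i _ => abs_nonneg _) fun j hj => ?_
      have := hUr j (mem_of_mem_erase hj); have := hUr i hi
      rw [abs_le]; omega
    rw [hb]; exact_mod_cast this
  have hF : (x0 ! : ℚ) ≤ b ^ B := by
    have : x0 ! ≤ B ^ B := (factorial_le hB).trans (factorial_le_pow B)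
    rw [hb]; exact_mod_cast this
  have hρ : ∀ e, (2 / (N : ℚ)) ^ e * b ^ (l * e) ≤ 1 := by
    intro e
    rw [pow_mul, ← mul_pow]
    refine pow_le_one₀ (by positivity) ?_
    have : 2 * b ^ l ≤ N := by rw [hb]; exact_mod_cast hN
    rw [div_mul_eq_mul_div, div_le_one (by exact_mod_cast (show 0 < N by omega))]
    exact this
  set I : ℤ := ∑ y ∈ U, S y * z y * c y with hI
  have hIq : (I : ℚ) = Δ * x0 ! * ∑ y ∈ U, u y + ∑ y ∈ U, Δ * (S y * u y) := by
    rw [hI, mul_sum, ← sum_add_distrib, Int.cast_sum]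
    refine sum_congr rfl fun y hy => ?_
    have e1 : ((y ! + 1 : ℕ) : ℚ) = ((N + y) ^ (g + s) * c y : ℕ) := by rw [hc y hy]
    have e2 : ((y ! * S y : ℕ) : ℚ) = (x0 ! : ℕ) := by rw [hSf y hy]
    push_cast at e1 e2 ⊢
    rw [← hz y hy, ← e2]
    linear_combination (-(S y : ℚ) * Δ * u y) * e1
  have k1 : |(Δ : ℚ) * x0 ! * ∑ y ∈ U, u y| * b ≤ 1 := by
    rw [abs_mul, abs_mul, Nat.abs_cast]
    refine le_trans ?_ (hρ (t * g + 1 + s))
    calc _ ≤ b ^ (t * (t * g + 1)) * b ^ B * (2 / (N : ℚ)) ^ (t * g + 1 + s) * b := by gcongr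
      _ = (2 / (N : ℚ)) ^ (t * g + 1 + s) * b ^ (t * (t * g + 1) + B + 1) := by ring
      _ ≤ _ := by gcongr; linarith
  have k2 : |∑ y ∈ U, (Δ : ℚ) * (S y * u y)| * b ≤ 1 := by
    refine le_trans ?_ (hρ (1 + s))
    have a1 : |∑ y ∈ U, (Δ : ℚ) * (S y * u y)| ≤
        b * (b ^ (t * (t * g + 1)) * (b ^ w * (b ^ (t * g) * (2 / N) ^ (1 + s)))) := by
      refine (abs_sum_le_sum_abs _ _).trans ((sum_le_card_nsmul _ _ (b ^ (t * (t * g + 1)) *
        (b ^ w * (b ^ (t * g) * (2 / N) ^ (1 + s)))) fun y hy => ?_).trans ?_)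
      · rw [abs_mul, abs_mul, Nat.abs_cast]
        have := hSB y hy
        have : |u y| ≤ b ^ (t * g) * (2 / N) ^ (1 + s) :=
          (u2 y hy).2.trans (by gcongr; linarith)
        gcongr
      · rw [nsmul_eq_mul, hUc]
        have : ((t + 1 : ℕ) : ℚ) ≤ b := by rw [hb]; exact_mod_cast htB
        gcongr
    calc _ ≤ b * (b ^ (t * (t * g + 1)) * (b ^ w * (b ^ (t * g) * (2 / N) ^ (1 + s)))) * b := by
          gcongr
      _ = (2 / (N : ℚ)) ^ (1 + s) * b ^ (w + t * (t * g + 1) + t * g + 2) := by ring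
      _ ≤ _ := by gcongr; linarith
  have hI0 : I = 0 := by
    have a := abs_add_le ((Δ : ℚ) * x0 ! * ∑ y ∈ U, u y) (∑ y ∈ U, (Δ : ℚ) * (S y * u y))
    rw [← hIq] at a
    have a1 := abs_nonneg ((Δ : ℚ) * x0 ! * ∑ y ∈ U, u y)
    have a2 := abs_nonneg (∑ y ∈ U, (Δ : ℚ) * (S y * u y))
    have : |(I : ℚ)| < 1 := by nlinarith
    have : |I| < 1 := by exact_mod_cast this
    exact Int.abs_lt_one_iff.1 this
  have hqp : Prime (q : ℤ) := Nat.prime_iff_prime_int.1 hq
  have hqf : q ∣ x0 ! := hqx.trans (dvd_factorial hx0 le_rfl)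
  have hqc : ¬ q ∣ (N + x0) ^ (g + s) * c x0 := by
    rw [← hc x0 hxU]
    exact fun h => hq.one_lt.ne' (Nat.dvd_one.1 ((Nat.dvd_add_right hqf).1 h))
  have d1 : (q : ℤ) ∣ z x0 * c x0 := by
    rw [hI, hU, sum_insert hx] at hI0
    have : z x0 * c x0 = -∑ y ∈ T, (S y : ℤ) * z y * c y := by
      simp only [hS, Nat.sub_self, ascFactorial_zero, Nat.cast_one, one_mul] at hI0
      simp only [hS]
      linarith
    rw [this, dvd_neg]
    refine dvd_sum fun y hy => (Dvd.dvd.mul_right ?_ _).mul_right _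
    have := (hr y hy).1
    simp only [hS]
    rw [show x0 - y = (x0 - y - 1) + 1 by omega, ascFactorial_succ,
      show y + 1 + (x0 - y - 1) = x0 by omega]
    exact_mod_cast hqx.mul_right _
  rcases hqp.dvd_or_dvd d1 with d | d
  · have e : z x0 * ∏ y ∈ U.erase x0, ((y : ℤ) - x0) ^ μ y = Δ * (N + x0) ^ (g - 1) := by
      have := hz x0 hxU
      rw [show g + s = g - 1 + (s + 1) by omega, pow_add] at this
      have e : (z x0 : ℚ) * ∏ y ∈ U.erase x0, ((y : ℚ) - x0) ^ μ y = Δ * (N + x0) ^ (g - 1) := by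
        rw [← this]
        linear_combination (Δ : ℚ) * (N + x0) ^ (g - 1) * u4
      exact_mod_cast e
    rcases hqp.dvd_or_dvd (e ▸ d.mul_right _) with d | d
    · obtain ⟨i, hi, d⟩ := (hqp.dvd_finsetProd_iff _).1 d
      obtain ⟨j, hj, d⟩ := (hqp.dvd_finsetProd_iff _).1 (hqp.dvd_of_dvd_pow d)
      have := hUr j (mem_of_mem_erase hj); have := hUr i hi
      have := (mem_erase.1 hj).1
      have := Int.le_abs_of_dvd (by omega) d
      rw [le_abs] at this
      omega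
    · have d : q ∣ N + x0 := by exact_mod_cast hqp.dvd_of_dvd_pow d
      exact hqc ((d.trans (dvd_pow_self _ (by omega))).mul_right _)
  · exact hqc (Dvd.dvd.mul_left (by exact_mod_cast d) _)

end Pool.Agent.Lib.MP_e3655f_nt
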