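import Pool.Agent.Lib.MP_e3655f_nt.Core

/-! Counting: `π(n^3) ≤ n^2 + 1 + 15 n^2 · #(EHS numbers up to (5 n^3)!)`. -/

namespace Pool.Agent.Lib.MP_e3655f_nt

open Finset Nat

def EHS (m : ℕ) : Prop := ∃ p : ℕ, p.Prime ∧ p ∣ m.factorial + 1 ∧ ¬ Nat.ModEq m p 1

theorem window (n N : ℕ) (hn : 6 ≤ n) (hN : (6 * n ^ 3) ^ (7 * n ^ 2) ≤ N) (A : Finset ℕ)
    (hA : ∀ k ∈ A, n ^ 2 ≤ k ∧ k ≤ 5 * n ^ 3 ∧ (N + k).Prime ∧ (N + k) ∣ k ! + 1) :
    A.card ≤ 14 * n ^ 2 := by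
  have hw : 0 < n ^ 2 := by positivity
  have h23 : 6 * n ^ 2 ≤ n ^ 3 := by nlinarith
  have h12 : 6 * n ≤ n ^ 2 := by nlinarith
  have key : ∀ b ∈ range (5 * n + 1), #{a ∈ A | a / n ^ 2 = b} ≤ 2 * n := by
    intro b _
    by_contra hc
    set F := {a ∈ A | a / n ^ 2 = b} with hF
    have hne : F.Nonempty := card_pos.1 (by omega)
    set k0 := F.min' hne with hk0
    have hk0F : k0 ∈ F := min'_mem _ _
    have hmin : ∀ k ∈ F, k0 ≤ k := fun k hk => min'_le _ _ hk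
    have hc2 : n ≤ #{k ∈ F | k0 + n + 1 ≤ k} := by
      have h1 := card_filter_add_card_filter_not (s := F) (fun k => k0 + n + 1 ≤ k)
      have h2 : #{k ∈ F | ¬ (k0 + n + 1 ≤ k)} ≤ #(Icc k0 (k0 + n)) := by
        refine card_le_card fun k hk => ?_
        have := hmin k (mem_filter.1 hk).1
        have := (mem_filter.1 hk).2
        rw [mem_Icc]; omega
      rw [Nat.card_Icc] at h2
      omega
    obtain ⟨T, hTs, hT⟩ := exists_subset_card_eq hc2
    have hTF : ∀ k ∈ T, k ∈ F := fun k hk => (mem_filter.1 (hTs hk)).1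
    have a0 := hA k0 (mem_filter.1 hk0F).1
    set B := 6 * n ^ 3 with hB
    have hB1 : 1 < B := by omega
    refine core N n (n ^ 2) (n ^ 2) B k0 T hT (by omega) (fun k hk => (mem_filter.1 (hTs hk)).2)
      (fun k hk => ?_) (by omega) a0.1 le_rfl (by omega) (fun k hk => ?_) ?_ ?_
    · have e1 := (mem_filter.1 (hTF k hk)).2
      have e2 := (mem_filter.1 hk0F).2
      have := Nat.lt_div_mul_add (a := k) hw
      have := Nat.div_mul_le_self k0 (n ^ 2)
      rw [e1] at *; rw [e2] at *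
      omega
    · rcases mem_insert.1 hk with rfl | hk
      · exact a0.2.2
      · exact (hA k (mem_filter.1 (hTF k hk)).1).2.2
    · refine lt_of_lt_of_le ?_ hN
      calc 2 * (n + 1) * (B ^ n ^ 2 * (n ^ 2) ^ (n * (n + 1)))
          ≤ B * (B ^ n ^ 2 * B ^ (n * (n + 1))) :=
            Nat.mul_le_mul (by omega) (Nat.mul_le_mul_left _ (Nat.pow_le_pow_left (by omega) _))
        _ = B ^ (1 + n ^ 2 + n * (n + 1)) := by ring
        _ < B ^ (7 * n ^ 2) := Nat.pow_lt_pow_right hB1 (by nlinarith)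
    · refine lt_of_lt_of_le ?_ (Nat.pow_le_pow_left hN n)
      calc 2 * (n ^ 2) ^ n * B ^ B ≤ B * B ^ n * B ^ B :=
            Nat.mul_le_mul_right _ (Nat.mul_le_mul (by omega) (Nat.pow_le_pow_left (by omega) _))
        _ = B ^ (1 + n + B) := by ring
        _ < B ^ (7 * n ^ 2 * n) := Nat.pow_lt_pow_right hB1 (by nlinarith)
        _ = _ := pow_mul _ _ _
  have := card_le_mul_card_image_of_maps_to (s := A) (t := range (5 * n + 1))
    (f := fun a => a / n ^ 2) (fun a ha => ?_) (2 * n) key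
  · rw [card_range] at this; nlinarith
  · rw [mem_range, Nat.lt_succ_iff]
    refine Nat.div_le_of_le_mul ?_
    have := (hA a ha).2.1
    nlinarith

theorem reflect (p k : ℕ) (hp : p.Prime) (hk : Odd k) (hkp : k < p) (h : p ∣ k ! + 1) :
    p ∣ (p - 1 - k)! + 1 := by
  have := Fact.mk hp
  have h1 := Nat.factorial_mul_descFactorial (show k ≤ p - 1 by omega)
  have h2 := ZMod.cast_descFactorial (p := p) (n := k) hkp.le
  have h3 := ZMod.wilsons_lemma p
  have h4 : ((k ! : ℕ) : ZMod p) = -1 := by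
    have := (ZMod.natCast_eq_zero_iff _ _).2 h
    push_cast at this
    exact eq_neg_of_add_eq_zero_left this
  rw [← h1, Nat.cast_mul, h2, h4, hk.neg_one_pow] at h3
  rw [← ZMod.natCast_eq_zero_iff]
  push_cast
  linear_combination h3

theorem partner (k : ℕ) (hk : k % 6 = 1) (hk1 : 1 < k) (h : ¬ EHS k) :
    ∃ m, EHS m ∧ 1 ≤ m ∧ m ≤ k ! ∧ k ∣ m ∧ (m + 1 + k).Prime ∧ (m + 1 + k) ∣ k ! + 1 := by
  have hf := factorial_pos k
  obtain ⟨p, hp, hd⟩ := Nat.exists_prime_and_dvd (show k ! + 1 ≠ 1 by omega)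
  have hm : Nat.ModEq k p 1 := by
    by_contra hc; exact h ⟨p, hp, hd, hc⟩
  obtain ⟨a, ha⟩ := (Nat.modEq_iff_dvd' hp.one_le).1 hm.symm
  have h2 := hp.two_le
  have ha3 : 3 ≤ a := by
    by_contra hc
    have : a = 0 ∨ a = 1 ∨ a = 2 := by omega
    rcases this with rfl | rfl | rfl
    · omega
    · have := hp.eq_one_or_self_of_dvd 2 (by omega); omega
    · have := hp.eq_one_or_self_of_dvd 3 (by omega); omega
  have h3 : k * 3 ≤ k * a := Nat.mul_le_mul_left _ ha3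
  have hle := Nat.le_of_dvd (by omega) hd
  have e : p - 1 - k + 1 + k = p := by omega
  refine ⟨p - 1 - k, ⟨p, hp, reflect p k hp ⟨k / 2, by omega⟩ (by omega) hd, fun hc => ?_⟩,
    by omega, by omega, Nat.dvd_sub ⟨a, ha⟩ dvd_rfl, e.symm ▸ hp, e.symm ▸ hd⟩
  have h4 := (Nat.modEq_iff_dvd' hp.one_le).1 hc.symm
  have h5 : p - 1 - k ∣ k := by
    have := Nat.dvd_sub h4 (dvd_refl (p - 1 - k))
    rwa [show p - 1 - (p - 1 - k) = k by omega] at this
  have := Nat.le_of_dvd (by omega) h5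
  omega

def kap (q : ℕ) : ℕ := if q % 3 = 1 then q else 5 * q

theorem kap_mod {q : ℕ} (hq : q.Prime) (h : 5 < q) : kap q % 6 = 1 := by
  have h2 : ¬ 2 ∣ q := fun hc => by have := hq.eq_one_or_self_of_dvd 2 hc; omega
  have h3 : ¬ 3 ∣ q := fun hc => by have := hq.eq_one_or_self_of_dvd 3 hc; omega
  unfold kap; split_ifs <;> omega

theorem kap_inj {q r : ℕ} (hq : q.Prime) (h : 5 < q) (hr : r.Prime) (h' : 5 < r)
    (e : kap q = kap r) : q = r := by
  have h2 : ¬ 5 ∣ q := fun hc => by have := hq.eq_one_or_self_of_dvd 5 hc; omega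
  have h3 : ¬ 5 ∣ r := fun hc => by have := hr.eq_one_or_self_of_dvd 5 hc; omega
  unfold kap at e; split_ifs at e <;> omega

theorem kap_bd (q : ℕ) : q ≤ kap q ∧ kap q ≤ 5 * q ∧ q ∣ kap q := by
  unfold kap; split_ifs
  · exact ⟨le_rfl, by omega, dvd_rfl⟩
  · exact ⟨by omega, le_rfl, dvd_mul_left _ _⟩

theorem fiber (n s : ℕ) (hn : 6 ≤ n) (hs : 1 ≤ s) (G : Finset ℕ)
    (hG : ∀ q ∈ G, q.Prime ∧ n ^ 2 < q ∧ q ≤ n ^ 3 ∧ kap q ∣ s ∧ (s + 1 + kap q).Prime ∧
      (s + 1 + kap q) ∣ (kap q)! + 1) : G.card ≤ 14 * n ^ 2 := by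
  have h12 : 6 * n ≤ n ^ 2 := by nlinarith
  by_cases hN : (6 * n ^ 3) ^ (7 * n ^ 2) ≤ s + 1
  · rw [← Finset.card_image_of_injOn (f := kap) fun q hq r hr e =>
      kap_inj (hG q hq).1 (by have := (hG q hq).2.1; omega) (hG r hr).1
        (by have := (hG r hr).2.1; omega) e]
    refine window n (s + 1) hn hN _ fun k hk => ?_
    obtain ⟨q, hq, rfl⟩ := mem_image.1 hk
    obtain ⟨-, a, b, -, c⟩ := hG q hq
    have := kap_bd q
    exact ⟨by omega, by omega, c⟩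
  · have h1 : ∏ q ∈ G, q ∣ s :=
      prod_primes_dvd s (fun q hq => (hG q hq).1.prime)
        fun q hq => (kap_bd q).2.2.trans (hG q hq).2.2.2.1
    have h2 : (n ^ 2) ^ G.card ≤ ∏ q ∈ G, q :=
      pow_card_le_prod _ _ _ fun q hq => (hG q hq).2.1.le
    have h3 := Nat.le_of_dvd hs h1
    have h4 : (6 * n ^ 3) ^ (7 * n ^ 2) ≤ (n ^ 2) ^ (14 * n ^ 2) := by
      rw [show 14 * n ^ 2 = 2 * (7 * n ^ 2) by ring, pow_mul (n ^ 2)]
      exact Nat.pow_le_pow_left (by nlinarith [Nat.mul_le_mul_right (n ^ 3) hn]) _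
    exact (Nat.pow_le_pow_iff_right (show 1 < n ^ 2 by omega)).1 (by omega)

open Classical in
theorem count (n X : ℕ) (hn : 6 ≤ n) (hX : (5 * n ^ 3)! ≤ X) :
    primeCounting (n ^ 3) ≤ n ^ 2 + 1 + 15 * n ^ 2 * #{m ∈ Icc 1 X | EHS m} := by
  have h12 : 6 * n ≤ n ^ 2 := by nlinarith
  set Pr := {q ∈ primesLE (n ^ 3) | n ^ 2 < q} with hPr
  have hmem : ∀ q ∈ Pr, q.Prime ∧ n ^ 2 < q ∧ q ≤ n ^ 3 := by
    intro q hq
    have := mem_filter.1 hq
    have h := mem_primesLE.1 this.1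
    exact ⟨h.2, this.2, h.1⟩
  have hex : ∀ q, ∃ s, q ∈ Pr → s ∈ {m ∈ Icc 1 X | EHS m} ∧ (s = kap q ∨ (kap q ∣ s ∧
      (s + 1 + kap q).Prime ∧ (s + 1 + kap q) ∣ (kap q)! + 1)) := by
    intro q
    by_cases hq : q ∈ Pr
    · obtain ⟨a, b, c⟩ := hmem q hq
      have hb := kap_bd q
      have hf : (kap q)! ≤ X := (factorial_le (by omega)).trans hX
      by_cases h : EHS (kap q)
      · refine ⟨kap q, fun _ => ⟨mem_filter.2 ⟨mem_Icc.2 ⟨by omega, ?_⟩, h⟩, Or.inl rfl⟩⟩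
        exact (self_le_factorial _).trans hf
      · obtain ⟨m, m1, m2, m3, m4⟩ := partner _ (kap_mod a (by omega)) (by omega) h
        exact ⟨m, fun _ => ⟨mem_filter.2 ⟨mem_Icc.2 ⟨m2, m3.trans hf⟩, m1⟩, Or.inr m4⟩⟩
    · exact ⟨0, fun h => absurd h hq⟩
  choose f hf using hex
  have h1 := card_le_mul_card_image_of_maps_to (s := Pr) (f := f) (fun q hq => (hf q hq).1)
    (15 * n ^ 2) fun s hs => by
      have hs1 : 1 ≤ s := (mem_Icc.1 (mem_filter.1 hs).1).1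
      have a1 := card_filter_add_card_filter_not (s := {a ∈ Pr | f a = s}) (fun q => s = kap q)
      have a2 : #{q ∈ {a ∈ Pr | f a = s} | s = kap q} ≤ 1 := by
        refine card_le_one.2 fun q hq r hr => ?_
        have q1 := hmem q (mem_filter.1 (mem_filter.1 hq).1).1
        have r1 := hmem r (mem_filter.1 (mem_filter.1 hr).1).1
        exact kap_inj q1.1 (by omega) r1.1 (by omega)
          ((mem_filter.1 hq).2.symm.trans (mem_filter.1 hr).2)
      have a3 := fiber n s hn hs1 {q ∈ {a ∈ Pr | f a = s} | ¬ s = kap q} fun q hq => by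
        obtain ⟨q1, q2⟩ := mem_filter.1 hq
        obtain ⟨q3, q4⟩ := mem_filter.1 q1
        obtain ⟨a, b, c⟩ := hmem q q3
        have := (hf q q3).2
        rw [q4] at this
        exact ⟨a, b, c, this.resolve_left q2⟩
      omega
  have h2 := card_filter_add_card_filter_not (s := primesLE (n ^ 3)) (fun q => n ^ 2 < q)
  have h3 : #{q ∈ primesLE (n ^ 3) | ¬ n ^ 2 < q} ≤ #(range (n ^ 2 + 1)) :=
    card_le_card fun q hq => mem_range.2 (by have := (mem_filter.1 hq).2; omega)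
  rw [card_range] at h3
  rw [← hPr] at h2
  rw [← primesLE_card_eq_primeCounting]
  omega

end Pool.Agent.Lib.MP_e3655f_nt
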