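import Mathlib

/-! Partial fractions of `∏ (x_y - ε)^(-μ_y)` with control of sizes and denominators. -/

namespace Pool.Agent.Lib.MP_e3655f_nt

open Finset PowerSeries

noncomputable def io (x : ℚ) : ℚ⟦X⟧ := PowerSeries.mk fun j => (x⁻¹) ^ (j + 1)

theorem io_mul {x : ℚ} (hx : x ≠ 0) : io x * (C x - X) = 1 := by
  ext j
  rw [mul_sub, map_sub, coeff_mul_C]
  rcases j with _ | j
  · simp [io, hx]
  · rw [coeff_succ_mul_X, coeff_one]
    simp only [io, coeff_mk]
    rw [if_neg (by omega), pow_succ _ (j + 1), mul_assoc, inv_mul_cancel₀ hx, mul_one, sub_self]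

theorem io_sub {x y : ℚ} (hx : x ≠ 0) (hy : y ≠ 0) :
    C (y - x) * (io x * io y) = io x - io y := by
  have h1 := io_mul hx
  have h2 := io_mul hy
  rw [map_sub]
  linear_combination io x * h2 - io y * h1

theorem co_zero {x : ℚ} (hx : x ≠ 0) (f : ℚ⟦X⟧) :
    x * coeff 0 (io x * f) = coeff 0 f := by
  have : f = (io x * f) * C x - (io x * f) * X := by linear_combination (-f) * io_mul hx
  conv_rhs => rw [this]
  rw [map_sub, coeff_mul_C, coeff_zero_mul_X]; ring

theorem co_succ {x : ℚ} (hx : x ≠ 0) (f : ℚ⟦X⟧) (s : ℕ) :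
    x * coeff (s + 1) (io x * f) = coeff (s + 1) f + coeff s (io x * f) := by
  have : f = (io x * f) * C x - (io x * f) * X := by linear_combination (-f) * io_mul hx
  conv_rhs => rw [this]
  rw [map_sub, coeff_mul_C, coeff_succ_mul_X, ← this]; ring

def Bd (N : ℚ) (l : ℕ) (f : ℚ⟦X⟧) : Prop := ∀ s, |coeff s f| ≤ (2 / N) ^ (l + s)

theorem Bd.one {N : ℚ} (hN : 0 < N) : Bd N 0 1 := by
  intro s
  rw [coeff_one]
  split_ifs with h
  · simp [h]
  · simp only [abs_zero]; positivity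

theorem Bd.step {N x : ℚ} (hN : 0 < N) (hx : N ≤ x) {l : ℕ} {f : ℚ⟦X⟧} (h : Bd N l f) :
    Bd N (l + 1) (io x * f) := by
  have hx0 : 0 < x := hN.trans_le hx
  have key : ∀ (c : ℚ) (e : ℕ), |x * c| ≤ 2 * (2 / N) ^ e → |c| ≤ (2 / N) ^ (e + 1) := by
    intro c e hc
    rw [abs_mul, abs_of_pos hx0] at hc
    have := mul_le_mul_of_nonneg_right hx (abs_nonneg c)
    rw [pow_succ, mul_div_assoc', le_div_iff₀ hN]
    linarith
  intro s
  induction s with
  | zero =>
    refine key _ l ?_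
    rw [co_zero hx0.ne']
    have := h 0
    have : (0 : ℚ) ≤ (2 / N) ^ l := by positivity
    simp only [add_zero] at *
    linarith
  | succ s ih =>
    refine key _ (l + 1 + s) ?_
    rw [co_succ hx0.ne']
    have := h (s + 1)
    rw [show l + (s + 1) = l + 1 + s by ring] at this
    have := abs_add_le (coeff (s + 1) f) (coeff s (io x * f))
    linarith

theorem Bd.pow {N x : ℚ} (hN : 0 < N) (hx : N ≤ x) {l : ℕ} {f : ℚ⟦X⟧} (h : Bd N l f) (r : ℕ) :
    Bd N (l + r) (io x ^ r * f) := by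
  induction r with
  | zero => simpa using h
  | succ r ih => rw [pow_succ', mul_assoc]; exact ih.step hN hx

theorem Bd.prod {N : ℚ} (hN : 0 < N) (U : Finset ℕ) (μ : ℕ → ℕ) :
    Bd N (∑ y ∈ U, μ y) (∏ y ∈ U, io (N + y) ^ μ y) := by
  induction U using Finset.induction_on with
  | empty => simpa using Bd.one hN
  | insert a s ha ih =>
    rw [sum_insert ha, prod_insert ha, add_comm]
    exact ih.pow hN (by simp) _

theorem int_pow (x : ℤ) (hx : x ≠ 0) (r s : ℕ) :
    ∃ z : ℤ, (x : ℚ) ^ (r + s) * coeff s (io x ^ r) = z := by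
  have hx' : (x : ℚ) ≠ 0 := by exact_mod_cast hx
  induction r generalizing s with
  | zero =>
    rw [pow_zero, coeff_one]
    split_ifs
    · exact ⟨x ^ (0 + s), by simp⟩
    · exact ⟨0, by simp⟩
  | succ r ih =>
    rw [pow_succ' (io x)]
    induction s with
    | zero =>
      obtain ⟨z, hz⟩ := ih 0
      refine ⟨z, ?_⟩
      rw [← hz, ← co_zero hx' (io x ^ r)]; ring
    | succ s ih2 =>
      obtain ⟨z, hz⟩ := ih (s + 1)
      obtain ⟨z', hz'⟩ := ih2
      refine ⟨z + z', ?_⟩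
      have := co_succ hx' (io x ^ r) s
      push_cast
      rw [← hz, ← hz']
      linear_combination (x : ℚ) ^ (r + (s + 1)) * this

def DD (U : Finset ℕ) (y : ℕ) : ℤ := ∏ i ∈ U.erase y, ((i : ℤ) - y)

theorem prod_dec {M : Type*} [CommMonoid M] (U : Finset ℕ) (f : ℕ → M) (μ : ℕ → ℕ) {x : ℕ}
    (hx : x ∈ U) (h : 0 < μ x) :
    ∏ y ∈ U, f y ^ μ y = f x * ∏ y ∈ U, f y ^ Function.update μ x (μ x - 1) y := by
  rw [← mul_prod_erase U _ hx, ← mul_prod_erase U _ hx, Function.update_self, ← mul_assoc,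
    ← pow_succ', Nat.sub_add_cancel h]
  congr 1
  exact prod_congr rfl fun y hy => by rw [Function.update_of_ne (mem_erase.1 hy).1]

theorem sum_dec (U : Finset ℕ) (μ : ℕ → ℕ) {x : ℕ} (hx : x ∈ U) (h : 0 < μ x) :
    ∑ y ∈ U, μ y = ∑ y ∈ U, Function.update μ x (μ x - 1) y + 1 := by
  rw [← add_sum_erase U _ hx, ← add_sum_erase U _ hx, Function.update_self,
    sum_congr rfl fun y hy => Function.update_of_ne (mem_erase.1 hy).1 (μ x - 1) μ,
    add_right_comm, Nat.sub_add_cancel h]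

theorem pf (N g s x0 : ℕ) (hN : 2 ≤ N) (U : Finset ℕ) (hx0 : x0 ∈ U) (n : ℕ) :
    ∀ μ : ℕ → ℕ, ∑ y ∈ U, μ y = n + 1 → (∀ y, μ y ≤ g) → μ x0 ≤ 1 → ∃ u : ℕ → ℚ,
      coeff s (∏ y ∈ U, io (N + y) ^ μ y) = ∑ y ∈ U, u y ∧
      (∀ y ∈ U, (∃ z : ℤ, ((∏ i ∈ U, DD U i ^ μ i : ℤ) : ℚ) * (N + y) ^ (g + s) * u y = z) ∧
        |u y| ≤ 2 ^ n * (2 / N) ^ (1 + s)) ∧ (μ x0 = 0 → u x0 = 0) ∧
      (μ x0 = 1 → u x0 * (N + x0) ^ (s + 1) * ∏ y ∈ U.erase x0, ((y : ℚ) - x0) ^ μ y = 1) := by
  have hN' : (2 : ℚ) ≤ N := by exact_mod_cast hN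
  have hne : ∀ y : ℕ, (N : ℚ) + y ≠ 0 := fun y => by positivity
  induction n using Nat.strong_induction_on with
  | _ n ih =>
  intro μ hsum hg h1
  obtain ⟨x, hx, hxp, hxx⟩ : ∃ x ∈ U, 0 < μ x ∧ (μ x0 = 1 → x = x0) := by
    by_cases h : μ x0 = 1
    · exact ⟨x0, hx0, by omega, fun _ => rfl⟩
    · obtain ⟨x, hx, hp⟩ := exists_ne_zero_of_sum_ne_zero (show ∑ y ∈ U, μ y ≠ 0 by omega)
      exact ⟨x, hx, by omega, fun h' => absurd h' h⟩
  by_cases hy : ∃ y ∈ U, y ≠ x ∧ 0 < μ y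
  · obtain ⟨y, hy, hyx, hyp⟩ := hy
    have s1 := sum_dec U μ hx hxp
    have s2 := sum_dec U μ hy hyp
    have hn : 0 < n := by
      have := sum_dec U (Function.update μ x (μ x - 1)) hy
        (by rw [Function.update_of_ne hyx]; exact hyp)
      omega
    have hle : ∀ a b, Function.update μ a (μ a - 1) b ≤ μ b := by
      intro a b
      by_cases h : b = a
      · subst h; simp
      · rw [Function.update_of_ne h]
    obtain ⟨u1, a1, a2, a3, a4⟩ := ih (n - 1) (by omega) (Function.update μ x (μ x - 1))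
      (by omega) (fun i => (hle _ _).trans (hg i)) ((hle _ _).trans h1)
    obtain ⟨u2, b1, b2, b3, b4⟩ := ih (n - 1) (by omega) (Function.update μ y (μ y - 1))
      (by omega) (fun i => (hle _ _).trans (hg i)) ((hle _ _).trans h1)
    have hd : (y : ℚ) - x ≠ 0 := sub_ne_zero.2 (by exact_mod_cast hyx)
    have hd1 : 1 ≤ |(y : ℚ) - x| := by
      have : (1 : ℤ) ≤ |(y : ℤ) - x| := Int.one_le_abs (by omega)
      exact_mod_cast this
    refine ⟨fun i => (u2 i - u1 i) / (y - x), ?_, fun i hi => ⟨?_, ?_⟩, fun h => ?_, fun h => ?_⟩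
    · rw [← sum_div, sum_sub_distrib, ← a1, ← b1, eq_div_iff hd, ← map_sub, ← coeff_mul_C]
      congr 1
      have e1 := prod_dec U (fun y => io (N + y)) μ hx hxp
      have e2 := prod_dec U (fun y => io (N + y)) μ hy hyp
      have e3 := io_sub (hne x) (hne y)
      have e4 := io_mul (hne x)
      have e5 := io_mul (hne y)
      rw [add_sub_add_left_eq_sub] at e3
      rw [map_sub] at e3 ⊢
      rw [map_add] at e4 e5
      linear_combination (C (N : ℚ) + C (y : ℚ) - X) * e2 - (C (N : ℚ) + C (x : ℚ) - X) * e1 +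
        (∏ i ∈ U, io (N + i) ^ Function.update μ y (μ y - 1) i) * e5 -
        (∏ i ∈ U, io (N + i) ^ Function.update μ x (μ x - 1) i) * e4
    · obtain ⟨z1, hz1⟩ := (a2 i hi).1
      obtain ⟨z2, hz2⟩ := (b2 i hi).1
      obtain ⟨c1, hc1⟩ : ((y : ℤ) - x) ∣ DD U x :=
        dvd_prod_of_mem (fun i : ℕ => (i : ℤ) - x) (mem_erase.2 ⟨hyx, hy⟩)
      obtain ⟨c2, hc2⟩ : ((x : ℤ) - y) ∣ DD U y :=
        dvd_prod_of_mem (fun i : ℕ => (i : ℤ) - y) (mem_erase.2 ⟨hyx.symm, hx⟩)
      have e1 := congrArg (Int.cast : ℤ → ℚ) (prod_dec U (DD U) μ hx hxp)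
      have e2 := congrArg (Int.cast : ℤ → ℚ) (prod_dec U (DD U) μ hy hyp)
      rw [Int.cast_mul] at e1 e2
      rw [hc1] at e1; rw [hc2] at e2
      refine ⟨-c2 * z2 - c1 * z1, ?_⟩
      rw [← mul_div_assoc, div_eq_iff hd, Int.cast_sub, Int.cast_mul, Int.cast_mul, ← hz1, ← hz2]
      rw [Int.cast_mul, Int.cast_sub, Int.cast_natCast, Int.cast_natCast] at e1 e2
      rw [Int.cast_neg]
      linear_combination ((N : ℚ) + i) ^ (g + s) * u2 i * e2 - ((N : ℚ) + i) ^ (g + s) * u1 i * e1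
    · rw [abs_div]
      refine (div_le_self (abs_nonneg _) hd1).trans ((abs_sub _ _).trans ?_)
      have := (a2 i hi).2
      have := (b2 i hi).2
      rw [show n = n - 1 + 1 by omega, pow_succ]
      linarith
    · have := hle x x0
      have := hle y x0
      simp [a3 (by omega), b3 (by omega)]
    · obtain rfl := hxx h
      have q1 := a3 (by simp [h])
      have q2 := b4 (by rw [Function.update_of_ne hyx.symm]; exact h)
      simp only [q1, sub_zero]
      rw [prod_dec (U.erase x) (fun i => (i : ℚ) - x) μ (mem_erase.2 ⟨hyx, hy⟩) hyp, ← q2]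
      field_simp
  · push Not at hy
    have hz : ∀ y ∈ U, y ≠ x → μ y = 0 := fun y h h' => by have := hy y h h'; omega
    have hP : ∏ y ∈ U, io (N + y) ^ μ y = io (N + x) ^ μ x :=
      prod_eq_single_of_mem x hx fun y h h' => by rw [hz y h h', pow_zero]
    refine ⟨fun i => if i = x then coeff s (io (N + x) ^ μ x) else 0, ?_, fun i hi => ⟨?_, ?_⟩,
      fun h => ?_, fun h => ?_⟩
    · rw [hP, sum_ite_eq' U x, if_pos hx]
    · by_cases h : i = x
      · subst h
        obtain ⟨z, hz⟩ := int_pow ((N : ℤ) + i) (by omega) (μ i) s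
        refine ⟨(∏ i ∈ U, DD U i ^ μ i) * (N + i) ^ (g - μ i) * z, ?_⟩
        rw [Int.cast_mul, Int.cast_mul, ← hz, show g + s = (g - μ i) + (μ i + s) by
          have := hg i; omega, pow_add]
        push_cast
        simp only [if_true]
        ring
      · exact ⟨0, by simp [h]⟩
    · by_cases h : i = x
      · simp only [h, if_true]
        have := (Bd.one (show (0 : ℚ) < N by linarith)).pow (by linarith)
          (show (N : ℚ) ≤ N + x by simp) (μ x) s
        rw [mul_one] at this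
        refine this.trans ((pow_le_pow_of_le_one (by positivity)
          ((div_le_one (by linarith)).2 hN') (show 1 + s ≤ _ by omega)).trans ?_)
        exact le_mul_of_one_le_left (by positivity) (one_le_pow₀ (by norm_num))
      · simp only [h, if_false, abs_zero]; positivity
    · exact if_neg fun e => by subst e; omega
    · obtain rfl := hxx h
      rw [prod_eq_one fun y hy => by rw [hz y (mem_erase.1 hy).2 (mem_erase.1 hy).1, pow_zero]]
      simp only [if_true, h, pow_one, io, coeff_mk, mul_one]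
      rw [← mul_pow, inv_mul_cancel₀ (hne x), one_pow]

end Pool.Agent.Lib.MP_e3655f_nt
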