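import Pool.Agent.Lib.MP_e3655f_nt.Weight

/-! `#{primes in (n^3, 4 n^3]} ≤ 2400001 n · #(EHS numbers up to (20 n^3)!)`. -/

namespace Pool.Agent.Lib.MP_e3655f_nt

open Finset Nat

theorem partner2 (k p : ℕ) (hk : k % 6 = 1) (hk1 : 1 < k) (h : ¬ EHS k) (hp : p.Prime)
    (hd : p ∣ k ! + 1) : EHS (p - 1 - k) ∧ 1 ≤ p - 1 - k ∧ p - 1 - k ≤ k ! ∧ k ∣ p - 1 - k := by
  have hf := factorial_pos k
  have hm : Nat.ModEq k p 1 := by
    by_contra hc; exact h ⟨p, hp, hd, hc⟩
  obtain ⟨a, ha⟩ := (Nat.modEq_iff_dvd' hp.one_le).1 hm.symm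
  have h2 := hp.two_le
  have ha3 : 3 ≤ a := by
    by_contra hc
    have : a = 0 ∨ a = 1 ∨ a = 2 := by omega
    rcases this with rfl | rfl | rfl
    · omega
    · have := hp.eq_one_or_self_of_dvd 2 (by omega); omega
    · have := hp.eq_one_or_self_of_dvd 3 (by omega); omega
  have h3 : k * 3 ≤ k * a := Nat.mul_le_mul_left _ ha3
  have hle := Nat.le_of_dvd (by omega) hd
  refine ⟨⟨p, hp, reflect p k hp ⟨k / 2, by omega⟩ (by omega) hd, fun hc => ?_⟩,
    by omega, by omega, Nat.dvd_sub ⟨a, ha⟩ dvd_rfl⟩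
  have h4 := (Nat.modEq_iff_dvd' hp.one_le).1 hc.symm
  have h5 : p - 1 - k ∣ k := by
    have := Nat.dvd_sub h4 (dvd_refl (p - 1 - k))
    rwa [show p - 1 - (p - 1 - k) = k by omega] at this
  have := Nat.le_of_dvd (by omega) h5
  omega

theorem fact_big (n k : ℕ) (hn : 24 ≤ n) (hk : n ^ 3 ≤ k) : (24 * n ^ 3) ^ n ^ 3 ≤ (k ! + 1) ^ 4 := by
  have h23 : 2 * n ^ 2 ≤ n ^ 3 := by nlinarith
  have h1 := factorial_mul_pow_le_factorial (m := n ^ 2) (n := n ^ 3 - n ^ 2)
  have h2 : (n ^ 2) ^ (n ^ 3 - n ^ 2) ≤ k ! + 1 := by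
    refine (Nat.pow_le_pow_left (Nat.le_succ _) _).trans ((Nat.le_mul_of_pos_left _
      (factorial_pos (n ^ 2))).trans (h1.trans ((factorial_le (by omega)).trans (Nat.le_succ _))))
  calc (24 * n ^ 3) ^ n ^ 3 ≤ ((n ^ 2) ^ 2) ^ n ^ 3 :=
        Nat.pow_le_pow_left (by nlinarith [Nat.mul_le_mul_right (n ^ 3) hn]) _
    _ = (n ^ 2) ^ (2 * n ^ 3) := by rw [← pow_mul]
    _ ≤ (n ^ 2) ^ ((n ^ 3 - n ^ 2) * 4) := Nat.pow_le_pow_right (by positivity) (by omega)
    _ ≤ _ := by rw [pow_mul]; exact Nat.pow_le_pow_left h2 4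

open Classical in
theorem total (n X : ℕ) (hn : 24 ≤ n) (hX : (20 * n ^ 3)! ≤ X) :
    #{q ∈ primesLE (4 * n ^ 3) | n ^ 3 < q} ≤ 2400001 * n * #{m ∈ Icc 1 X | EHS m} := by
  have hn3 : 24 ^ 3 ≤ n ^ 3 := Nat.pow_le_pow_left hn 3
  set Pr := {q ∈ primesLE (4 * n ^ 3) | n ^ 3 < q} with hPr
  set S := {m ∈ Icc 1 X | EHS m} with hS
  have hmem : ∀ q ∈ Pr, q.Prime ∧ n ^ 3 < q ∧ q ≤ 4 * n ^ 3 := by
    intro q hq
    have := mem_filter.1 hq
    have h := mem_primesLE.1 this.1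
    exact ⟨h.2, this.2, h.1⟩
  have hf : ∀ q ∈ Pr, (kap q)! ≤ X := fun q hq =>
    (factorial_le (by have := kap_bd q; have := hmem q hq; omega)).trans hX
  have a1 := card_filter_add_card_filter_not (s := Pr) (fun q => EHS (kap q))
  have a2 : #{q ∈ Pr | EHS (kap q)} ≤ #S := by
    refine card_le_card_of_injOn kap (fun q hq => ?_) fun q hq r hr e => ?_
    · obtain ⟨q1, q2⟩ := mem_filter.1 (mem_coe.1 hq)
      have := kap_bd q; have := hmem q q1
      exact mem_coe.2 (mem_filter.2 ⟨mem_Icc.2 ⟨by omega,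
        (self_le_factorial _).trans (hf q q1)⟩, q2⟩)
    · have q1 := hmem q (mem_filter.1 (mem_coe.1 hq)).1
      have r1 := hmem r (mem_filter.1 (mem_coe.1 hr)).1
      exact kap_inj q1.1 (by omega) r1.1 (by omega) e
  set P' := {q ∈ Pr | ¬ EHS (kap q)} with hP'
  set V : ℕ → ℕ → ℕ := fun q m => ((kap q)! + 1).factorization (m + 1 + kap q) with hV
  have a3 : ∀ q ∈ P', n ^ 3 ≤ 4 * ∑ m ∈ S, if kap q ∣ m then (lv n m + 2) * V q m else 0 := by
    intro q hq
    obtain ⟨q1, q2⟩ := mem_filter.1 hq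
    obtain ⟨b1, b2, b3⟩ := hmem q q1
    have hb := kap_bd q
    set k := kap q with hk
    have hpa := fun p (hp : p ∈ (k ! + 1).primeFactors) => partner2 k p (kap_mod b1 (by omega))
      (by omega) q2 (prime_of_mem_primeFactors hp) (dvd_of_mem_primeFactors hp)
    have e1 : k ! + 1 ≤ (24 * n ^ 3) ^ ∑ p ∈ (k ! + 1).primeFactors,
        (lv n (p - 1 - k) + 2) * (k ! + 1).factorization p := by
      rw [← prod_pow_eq_pow_sum]
      conv_lhs => rw [← prod_factorization_pow_eq_self (show k ! + 1 ≠ 0 by omega)]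
      refine prod_le_prod' fun p hp => ?_
      rw [pow_mul]
      have := hpa p hp
      have := lv_hi (show 1 ≤ n by omega) (p - 1 - k) k (by omega)
      exact Nat.pow_le_pow_left (by omega) _
    have e2 : ∑ p ∈ (k ! + 1).primeFactors, (lv n (p - 1 - k) + 2) * (k ! + 1).factorization p ≤
        ∑ m ∈ S, if k ∣ m then (lv n m + 2) * V q m else 0 := by
      have i1 : Set.InjOn (fun p => p - 1 - k) (k ! + 1).primeFactors := fun p hp r hr e => by
        have := hpa p hp; have := hpa r hr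
        simp only at e; omega
      refine le_trans ?_ (sum_le_sum_of_subset (s := (k ! + 1).primeFactors.image
        fun p => p - 1 - k) fun m hm => ?_)
      · rw [sum_image i1]
        refine (sum_congr rfl fun p hp => ?_).le
        have := hpa p hp
        simp only [hV, ← hk]
        rw [if_pos this.2.2.2, show p - 1 - k + 1 + k = p by omega]
      · obtain ⟨p, hp, rfl⟩ := mem_image.1 hm
        have := hpa p hp
        exact mem_filter.2 ⟨mem_Icc.2 ⟨this.2.1, this.2.2.1.trans (hf q q1)⟩, this.1⟩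
    have e3 := (fact_big n k hn (by omega)).trans (Nat.pow_le_pow_left e1 4)
    rw [← pow_mul] at e3
    have := (Nat.pow_le_pow_iff_right (by omega)).1 e3
    omega
  have a4 : ∀ m ∈ S, ∑ q ∈ P', (if kap q ∣ m then (lv n m + 2) * V q m else 0) ≤
      600000 * n ^ 4 := by
    intro m hm
    rw [← sum_filter, ← mul_sum]
    refine weight n m (by omega) (mem_Icc.1 (mem_filter.1 hm).1).1 _ _ fun q hq => ?_
    obtain ⟨q1, q2⟩ := mem_filter.1 hq
    obtain ⟨b1, b2, b3⟩ := hmem q (mem_filter.1 q1).1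
    exact ⟨b1, b2, b3, q2, ordProj_dvd _ _⟩
  have a5 := card_nsmul_le_sum _ _ _ a3
  rw [← mul_sum, sum_comm, smul_eq_mul] at a5
  have a6 := sum_le_card_nsmul _ _ _ a4
  rw [smul_eq_mul] at a6
  have a7 : #P' ≤ 2400000 * n * #S := by
    refine Nat.le_of_mul_le_mul_right (c := n ^ 3) ?_ (by omega)
    nlinarith
  have a8 : #S ≤ n * #S := Nat.le_mul_of_pos_left _ (by omega)
  nlinarith

theorem primes_between (M : ℕ) : Chebyshev.theta (4 * M : ℕ) - Chebyshev.theta M ≤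
    #{q ∈ primesLE (4 * M) | M < q} * Real.log (4 * M) := by
  rw [Chebyshev.theta_eq_sum_primesLE_log, Chebyshev.theta_eq_sum_primesLE_log,
    ← sum_filter_add_sum_filter_not (primesLE (4 * M)) (fun q => M < q),
    show {q ∈ primesLE (4 * M) | ¬ M < q} = primesLE M from ?_, add_sub_cancel_right]
  · rw [← nsmul_eq_mul]
    refine sum_le_card_nsmul _ _ _ fun q hq => ?_
    have := mem_primesLE.1 (mem_filter.1 hq).1
    exact Real.log_le_log (by exact_mod_cast this.2.pos) (by exact_mod_cast this.1)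
  · ext q
    simp only [mem_filter, mem_primesLE]
    constructor
    · rintro ⟨⟨-, a⟩, b⟩; exact ⟨by omega, a⟩
    · rintro ⟨a, b⟩; exact ⟨⟨by omega, b⟩, by omega⟩

end Pool.Agent.Lib.MP_e3655f_nt
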