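import Pool.Agent.Lib.MP_e3655f_nt.Core2
import Pool.Agent.Lib.MP_e3655f_nt.Count

/-! The total weight `∑ v_p (k! + 1) log p` carried by one value `m = p - 1 - k`. -/

namespace Pool.Agent.Lib.MP_e3655f_nt

open Finset Nat

theorem window2 (n N l a : ℕ) (hn : 1 ≤ n) (hN : 2 * (24 * n ^ 3) ^ l ≤ N) (hl : 80 ≤ l)
    (ha : 1 ≤ a) (h1 : 1280 * (24 * n ^ 3) ^ 2 ≤ a ^ 2 * l ^ 3) (h2 : l * a ≤ 24 * n ^ 3)
    (A : Finset ℕ) (hA : ∀ k ∈ A, (∃ q, q.Prime ∧ q ∣ k ∧ n ^ 3 < q) ∧ 0 < k ∧ k ≤ 24 * n ^ 3 ∧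
      (N + k) ^ a ∣ k ! + 1) : A.card * (l * a) ^ 2 ≤ 245 * (24 * n ^ 3) ^ 2 := by
  have hn3 : 1 ≤ n ^ 3 := Nat.one_le_pow _ _ hn
  set B := 24 * n ^ 3 with hB
  set μ := l * a with hμ
  have hlμ : l ≤ μ := Nat.le_mul_of_pos_right _ ha
  set w := μ / 24 with hw
  set r := 2 * (B + 1) / μ with hr
  have r1 : r * μ ≤ 2 * (B + 1) := Nat.div_mul_le_self _ _
  have r2 : 2 * (B + 1) < r * μ + μ := Nat.lt_div_mul_add (by omega)
  have r3 : 80 * r ^ 2 ≤ l := by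
    have e1 : (r * μ) ^ 2 ≤ (4 * B) ^ 2 := Nat.pow_le_pow_left (by omega) 2
    have e2 := Nat.mul_le_mul_left (r ^ 2) h1
    have e3 := Nat.mul_le_mul_right l e1
    refine Nat.le_of_mul_le_mul_right (c := 16 * B ^ 2) ?_ (by positivity)
    calc 80 * r ^ 2 * (16 * B ^ 2) = r ^ 2 * (1280 * B ^ 2) := by ring
      _ ≤ r ^ 2 * (a ^ 2 * l ^ 3) := e2
      _ = (r * μ) ^ 2 * l := by rw [hμ]; ring
      _ ≤ (4 * B) ^ 2 * l := e3
      _ = l * (16 * B ^ 2) := by ring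
  set t := r + 1 with ht
  have t1 : 20 * t ^ 2 ≤ l := by rw [ht]; nlinarith [sq_nonneg ((r : ℤ) - 1)]
  have t2 : t ≤ t ^ 2 := Nat.le_self_pow (by norm_num) t
  set g := (a + 1) / 2 with hg
  set s := a - g with hs
  have c1 : w + t * (t * g + 1) + t * g + 2 ≤ l * (1 + s) := by
    have e1 : l * a ≤ l * (2 * (1 + s)) := Nat.mul_le_mul_left _ (by omega)
    have e2 : t ^ 2 * g ≤ t ^ 2 * a := Nat.mul_le_mul_left _ (by omega)
    have e3 : t * g ≤ t ^ 2 * a := Nat.mul_le_mul t2 (by omega)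
    have e4 : t ^ 2 ≤ t ^ 2 * a := Nat.le_mul_of_pos_right _ ha
    have e5 := Nat.mul_le_mul_right a t1
    have e6 : t * (t * g + 1) = t ^ 2 * g + t := by ring
    have e7 : 20 * t ^ 2 * a = 20 * (t ^ 2 * a) := by ring
    have e8 : l * (2 * (1 + s)) = 2 * (l * (1 + s)) := by ring
    omega
  have c2 : t * (t * g + 1) + B + 1 ≤ l * (t * g + 1 + s) := by
    have e1 : t * (l * a) ≤ t * (l * (2 * g)) :=
      Nat.mul_le_mul_left _ (Nat.mul_le_mul_left _ (by omega))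
    have e2 : t * μ = r * μ + μ := by rw [ht]; ring
    have e3 : l * (t * g + 1 + s) = l * (t * g) + l * (1 + s) := by ring
    have e4 : t * (l * (2 * g)) = 2 * (l * (t * g)) := by ring
    rw [← hμ] at e1
    omega
  have hw0 : 0 < w := by omega
  have key : ∀ b ∈ range (B / w + 1), #{k ∈ A | k / w = b} ≤ t := by
    intro b _
    by_contra hc
    obtain ⟨U, hUs, hU⟩ := exists_subset_card_eq (show t + 1 ≤ #{k ∈ A | k / w = b} from not_le.1 hc)
    have hne : U.Nonempty := card_pos.1 (hU ▸ Nat.succ_pos t)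
    have hx := max'_mem U hne
    have hm : ∀ y ∈ U, y ≤ U.max' hne := fun y hy => le_max' U y hy
    set x0 := U.max' hne
    obtain ⟨⟨q, q1, q2, q3⟩, q4, q5, -⟩ := hA x0 (mem_filter.1 (hUs hx)).1
    refine core2 N B l w g s t q x0 (U.erase x0) (by rw [card_erase_of_mem hx, hU]; rfl) (by omega)
      (fun y hy => ?_) q5 (by omega) (by omega) (by omega) q1 q2 q4 (by omega) (fun y hy => ?_)
      hN c1 c2
    · obtain ⟨y1, y2⟩ := mem_erase.1 hy
      have e1 := (mem_filter.1 (hUs hx)).2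
      have e2 := (mem_filter.1 (hUs y2)).2
      have := Nat.lt_div_mul_add (a := x0) hw0
      have := Nat.div_mul_le_self y w
      have := hm y y2
      rw [e1] at *; rw [e2] at *
      omega
    · rw [insert_erase hx] at hy
      rw [show g + s = a by omega]
      exact (hA y (mem_filter.1 (hUs hy)).1).2.2.2
  have hc := card_le_mul_card_image_of_maps_to (s := A) (t := range (B / w + 1))
    (f := fun k => k / w) (fun k hk => mem_range.2 (Nat.lt_succ_of_le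
      (Nat.div_le_div_right (hA k hk).2.2.1))) t key
  rw [card_range] at hc
  have f1 : t * μ ≤ 5 * B := by rw [ht, add_mul]; omega
  have f2 : (B / w + 1) * μ ≤ 49 * B := by
    have := Nat.div_mul_le_self B w
    have e : B / w * μ ≤ B / w * (48 * w) := Nat.mul_le_mul_left _ (by omega)
    nlinarith
  calc A.card * μ ^ 2 ≤ t * (B / w + 1) * μ ^ 2 := Nat.mul_le_mul_right _ hc
    _ = (t * μ) * ((B / w + 1) * μ) := by ring
    _ ≤ (5 * B) * (49 * B) := Nat.mul_le_mul f1 f2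
    _ = _ := by ring

def lv (n m : ℕ) : ℕ := Nat.log (24 * n ^ 3) ((m + 1) / 2)

theorem lv_lo (n : ℕ) {m : ℕ} (hm : 1 ≤ m) : 2 * (24 * n ^ 3) ^ lv n m ≤ m + 1 := by
  have := Nat.pow_log_le_self (24 * n ^ 3) (show (m + 1) / 2 ≠ 0 by omega)
  unfold lv; omega

theorem lv_hi {n : ℕ} (hn : 1 ≤ n) (m k : ℕ) (hk : k ≤ 24 * n ^ 3) :
    m + 1 + k ≤ (24 * n ^ 3) ^ (lv n m + 2) := by
  have hn3 : 1 ≤ n ^ 3 := Nat.one_le_pow _ _ hn
  have h := Nat.lt_pow_succ_log_self (show 1 < 24 * n ^ 3 by omega) ((m + 1) / 2)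
  have h2 : 24 * n ^ 3 ≤ (24 * n ^ 3) ^ (lv n m + 1) := Nat.le_self_pow (by omega) _
  have h3 := Nat.mul_le_mul_left ((24 * n ^ 3) ^ (lv n m + 1)) (show 3 ≤ 24 * n ^ 3 by omega)
  rw [pow_succ _ (lv n m + 1)]
  unfold lv at *
  simp only [Nat.succ_eq_add_one] at h
  omega

theorem weight (n m : ℕ) (hn : 3 ≤ n) (hm : 1 ≤ m) (G : Finset ℕ) (v : ℕ → ℕ)
    (hG : ∀ q ∈ G, q.Prime ∧ n ^ 3 < q ∧ q ≤ 4 * n ^ 3 ∧ kap q ∣ m ∧
      (m + 1 + kap q) ^ v q ∣ (kap q)! + 1) :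
    (lv n m + 2) * ∑ q ∈ G, v q ≤ 600000 * n ^ 4 := by
  have hn3 : 27 ≤ n ^ 3 := Nat.pow_le_pow_left hn 3
  have hlo := lv_lo n hm
  have hhi := lv_hi (show 1 ≤ n by omega) m 0 (by omega)
  set l := lv n m
  set B := 24 * n ^ 3 with hB
  have F1 : G.card ≤ 2 * (l + 2) := by
    have h1 : ∏ q ∈ G, q ∣ m :=
      prod_primes_dvd m (fun q hq => (hG q hq).1.prime)
        fun q hq => (kap_bd q).2.2.trans (hG q hq).2.2.2.1
    have h2 : (n ^ 3) ^ G.card ≤ ∏ q ∈ G, q :=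
      pow_card_le_prod _ _ _ fun q hq => (hG q hq).2.1.le
    have h3 := Nat.le_of_dvd hm h1
    have h4 : B ^ (l + 2) ≤ (n ^ 3) ^ (2 * (l + 2)) := by
      rw [pow_mul (n ^ 3)]
      exact Nat.pow_le_pow_left (by nlinarith) _
    exact (Nat.pow_le_pow_iff_right (show 1 < n ^ 3 by omega)).1 (by omega)
  have F2 : ∀ q ∈ G, l * v q ≤ B ∧ v q ≤ B := by
    intro q hq
    obtain ⟨-, a, b, -, c⟩ := hG q hq
    have hk := kap_bd q
    have c := Nat.le_of_dvd (by omega) c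
    have f1 : (kap q)! < (kap q + 1)! := (factorial_lt (by omega)).2 (by omega)
    constructor
    · refine (Nat.pow_le_pow_iff_right (show 1 < B by omega)).1 ?_
      rw [pow_mul]
      refine (Nat.pow_le_pow_left (show B ^ l ≤ m + 1 + kap q by omega) _).trans (c.trans ?_)
      exact f1.trans_le ((factorial_le (by omega)).trans (factorial_le_pow B))
    · have : (kap q + 1) ^ v q ≤ (kap q + 1) ^ (kap q + 1) :=
        (Nat.pow_le_pow_left (by omega) _).trans (c.trans (f1.trans_le (factorial_le_pow _)))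
      have := (Nat.pow_le_pow_iff_right (by omega)).1 this
      omega
  have h34 : n ^ 3 ≤ n ^ 4 := Nat.pow_le_pow_right (by omega) (by norm_num)
  by_cases hl : l < 80
  · rw [mul_sum]
    refine (sum_le_card_nsmul _ _ (3 * B) fun q hq => ?_).trans ?_
    · have := F2 q hq; rw [add_mul]; omega
    · have : G.card * (3 * B) ≤ 164 * (3 * B) := Nat.mul_le_mul_right _ (by omega)
      rw [smul_eq_mul]; omega
  have hex : ∃ a1, 1280 * B ^ 2 ≤ (a1 + 1) ^ 2 * l ^ 3 := ⟨1280 * B ^ 2, by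
    have : 1 ≤ l ^ 3 := Nat.one_le_pow _ _ (by omega)
    have := Nat.le_self_pow (show 2 ≠ 0 by norm_num) (1280 * B ^ 2 + 1)
    nlinarith⟩
  set a1 := Nat.find hex with ha1
  have g1 : 1280 * B ^ 2 ≤ (a1 + 1) ^ 2 * l ^ 3 := Nat.find_spec hex
  have hB2 : B ^ 2 = 576 * n ^ 6 := by rw [hB]; ring
  have g2 : a1 * l ^ 2 ≤ 8200 * n ^ 4 := by
    rcases Nat.eq_zero_or_pos a1 with h | h
    · simp [h]
    have e1 := Nat.find_min hex (show a1 - 1 < a1 by omega)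
    rw [Nat.sub_add_cancel h, hB2, not_le] at e1
    have e2 : l ≤ 91 * n ^ 2 := by
      refine (Nat.pow_le_pow_iff_left (show 3 ≠ 0 by norm_num)).1 ?_
      have : l ^ 3 ≤ a1 ^ 2 * l ^ 3 := Nat.le_mul_of_pos_left _ (by positivity)
      rw [show (91 * n ^ 2) ^ 3 = 753571 * n ^ 6 by ring]
      omega
    refine (Nat.pow_le_pow_iff_left (show 2 ≠ 0 by norm_num)).1 ?_
    calc (a1 * l ^ 2) ^ 2 = a1 ^ 2 * l ^ 3 * l := by ring
      _ ≤ 1280 * (576 * n ^ 6) * (91 * n ^ 2) := Nat.mul_le_mul e1.le e2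
      _ = 67092480 * n ^ 8 := by ring
      _ ≤ 67240000 * n ^ 8 := Nat.mul_le_mul_right _ (by norm_num)
      _ = _ := by ring
  have g3 : n ^ 2 ≤ l * (a1 + 1) := by
    refine (Nat.pow_le_pow_iff_left (show 3 ≠ 0 by norm_num)).1 ?_
    have : (a1 + 1) ^ 2 * l ^ 3 ≤ (a1 + 1) ^ 3 * l ^ 3 :=
      Nat.mul_le_mul_right _ (Nat.pow_le_pow_right (by omega) (by norm_num))
    rw [show (n ^ 2) ^ 3 = n ^ 6 by ring, mul_pow, mul_comm]
    omega
  set C : ℕ → ℕ := fun a => #{q ∈ G | a ≤ v q} with hC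
  have s1 : ∑ q ∈ G, v q = ∑ a ∈ Ioo 0 (B + 1), C a := by
    simp only [hC, card_filter]
    rw [sum_comm]
    refine sum_congr rfl fun q hq => ?_
    rw [← card_filter, show {a ∈ Ioo 0 (B + 1) | a ≤ v q} = Icc 1 (v q) from ?_, Nat.card_Icc]
    · omega
    · ext a
      have := (F2 q hq).2
      simp only [mem_filter, mem_Ioo, mem_Icc]; omega
  have s2 : ∑ a ∈ Ioo 0 (B + 1), C a ≤ ∑ a ∈ Icc 1 a1, C a + ∑ a ∈ Ioo a1 (B + 1), C a := by
    rw [← sum_union (by rw [disjoint_left]; intro a h1 h2; simp at h1 h2; omega)]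
    refine sum_le_sum_of_subset fun a h => ?_
    simp only [mem_union, mem_Ioo, mem_Icc] at h ⊢; omega
  have s3 : ∑ a ∈ Icc 1 a1, C a ≤ a1 * (2 * (l + 2)) := by
    refine (sum_le_card_nsmul _ _ (2 * (l + 2)) fun a _ =>
      (card_le_card (filter_subset _ _)).trans F1).trans ?_
    simp
  have s4 : ∀ a ∈ Ioo a1 (B + 1), C a * (l * a) ^ 2 ≤ 245 * B ^ 2 := by
    intro a ha
    have ha := (mem_Ioo.1 ha).1
    rcases Nat.eq_zero_or_pos (C a) with h | h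
    · simp [h]
    obtain ⟨q0, hq0⟩ := card_pos.1 h
    have := (F2 q0 (mem_filter.1 hq0).1).1
    have := Nat.mul_le_mul_left l (mem_filter.1 hq0).2
    simp only [hC]
    rw [← Finset.card_image_of_injOn (f := kap) fun q hq r hr e =>
      kap_inj (hG q (mem_filter.1 hq).1).1 (by have := (hG q (mem_filter.1 hq).1).2.1; omega)
        (hG r (mem_filter.1 hr).1).1 (by have := (hG r (mem_filter.1 hr).1).2.1; omega) e]
    refine window2 n (m + 1) l a (by omega) hlo (by omega) (by omega)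
      (g1.trans (Nat.mul_le_mul_right _ (Nat.pow_le_pow_left ha 2))) (by omega) _ fun k hk => ?_
    obtain ⟨q, hq, rfl⟩ := mem_image.1 hk
    obtain ⟨q1, q2, q3, -, q4⟩ := hG q (mem_filter.1 hq).1
    have := kap_bd q
    exact ⟨⟨q, q1, this.2.2, q2⟩, by omega, by omega, (pow_dvd_pow _ (mem_filter.1 hq).2).trans q4⟩
  have s5 : (∑ a ∈ Ioo a1 (B + 1), C a) * (l ^ 2 * (a1 + 1)) ≤ 490 * B ^ 2 := by
    have hl0 : (0 : ℝ) < l := by exact_mod_cast (show 0 < l by omega)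
    have e1 : ((∑ a ∈ Ioo a1 (B + 1), C a : ℕ) : ℝ) ≤
        245 * B ^ 2 / l ^ 2 * ∑ a ∈ Ioo a1 (B + 1), ((a : ℝ) ^ 2)⁻¹ := by
      rw [mul_sum, Nat.cast_sum]
      refine sum_le_sum fun a ha => ?_
      have ha0 : (0 : ℝ) < a := by exact_mod_cast (show 0 < a by have := (mem_Ioo.1 ha).1; omega)
      have : (C a : ℝ) * (l * a) ^ 2 ≤ 245 * B ^ 2 := by exact_mod_cast s4 a ha
      rw [← div_eq_mul_inv, div_div, le_div_iff₀ (by positivity), ← mul_pow]
      exact this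
    have e2 := e1.trans (mul_le_mul_of_nonneg_left (sum_Ioo_inv_sq_le a1 (B + 1)) (by positivity))
    rw [_root_.div_mul_div_comm, le_div_iff₀ (by positivity)] at e2
    have : ((∑ a ∈ Ioo a1 (B + 1), C a : ℕ) : ℝ) * (l ^ 2 * (a1 + 1)) ≤ 490 * B ^ 2 := by linarith
    exact_mod_cast this
  set Y := ∑ a ∈ Ioo a1 (B + 1), C a
  have s6 : l * Y ≤ 282240 * n ^ 4 := by
    refine Nat.le_of_mul_le_mul_right (c := n ^ 2) ?_ (by positivity)
    calc l * Y * n ^ 2 ≤ l * Y * (l * (a1 + 1)) := Nat.mul_le_mul_left _ g3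
      _ = Y * (l ^ 2 * (a1 + 1)) := by ring
      _ ≤ 490 * B ^ 2 := s5
      _ = _ := by rw [hB2]; ring
  have s7 : (l + 2) * (a1 * (2 * (l + 2))) ≤ 3 * (a1 * l ^ 2) := by
    have : 2 * (l + 2) ^ 2 ≤ 3 * l ^ 2 := by nlinarith
    nlinarith [Nat.mul_le_mul_left a1 this]
  have s8 : (l + 2) * Y ≤ 2 * (l * Y) := by nlinarith [Nat.mul_le_mul_right Y (show 2 ≤ l by omega)]
  have s9 := Nat.mul_le_mul_left (l + 2) (s2.trans (Nat.add_le_add_right s3 Y))
  rw [s1]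
  rw [mul_add] at s9
  omega

end Pool.Agent.Lib.MP_e3655f_nt
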